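import Pool.Agent.MP_f7db47_al.GZ.NCore2
import Pool.Agent.MP_f7db47_al.GN.GA
import Pool.Agent.MP_f7db47_al.GN.GB
import Pool.Agent.MP_f7db47_al.PT.ZVal

/-!
General linear groups in characteristic zero.
-/

namespace Pool.Agent.MP_f7db47_al.GZ

open Matrix GN GN.Pl

universe v

theorem glnF_places (A : Type) [CommRing A] [IsDomain A] [CharZero A]
    (hfg : Algebra.FiniteType ℤ A) (n : ℕ) :
    ∃ (ι : Type) (_ : Fintype ι) (P : ι → Pl) (ρ : ∀ l, GL (Fin n) A →* (P l).A n),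
      ∀ g, (∀ l, ∃ Y, Lat Y ∧ ac (ρ l g) Y = Y) → IsAlgebraic ℤ g.val.trace := by
  obtain ⟨L, _, _, φ, m, v, -, h1, h2, -⟩ := PT.exists_vals0 A hfg
  choose P ρ hρ using fun i => exists_place (v i) (h1 i) n
  refine ⟨Fin m, inferInstance, P, fun l => (ρ l).comp (GeneralLinearGroup.map φ),
    fun g hg => h2 _ fun i => ?_⟩
  cases n with
  | zero => simp [trace]
  | succ n =>
    have h3 := hρ i _ (hg i) (Fintype.card (Fin (n + 1)) - 1)
    rw [← Valuation.map_neg, ← trace_eq_neg_charpoly_coeff] at h3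
    rw [AddMonoidHom.map_trace φ]
    exact h3

theorem qq_glnF {R : Type v} [Ring R] {G : Type} [Group G] {K : Type} [Field K] [CharZero K]
    {n : ℕ} (f : G →* GL (Fin n) K)
    (h : ∀ H : Subgroup G, (∀ g ∈ ⁅H, H⁆, IsAlgebraic ℤ (f g).val.trace) → QQ R H) :
    QQ R G := by
  refine PT.qq_loc fun M hM => ?_
  obtain ⟨A₀, f₀, hA, hf⟩ := exists_fg_subring ((Group.fg_iff_subgroup_fg M).2 hM) K n
    (f.comp M.subtype)
  obtain ⟨ι, _, P, ρ, hρ⟩ := glnF_places A₀ hA n
  have hk : ∀ x : K, x ∈ (algebraicClosure ℚ K).toSubfield ↔ IsAlgebraic ℤ x := fun x =>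
    (mem_algebraicClosure_iff (F := ℚ)).trans (IsFractionRing.isAlgebraic_iff ℤ ℚ K).symm
  refine qq_lat2 P n (fun l => (ρ l).comp f₀) (algebraicClosure ℚ K).toSubfield
    ((Units.coeHom _).comp (f.comp M.subtype)) (fun g hg => (hk _).2 ?_) fun H hH => ?_
  · have h1 := (hρ (f₀ g) hg).algHom A₀.subtype.toIntAlgHom
    have h2 : A₀.subtype (f₀ g).val.trace = (f g).val.trace := by
      rw [AddMonoidHom.map_trace A₀.subtype]
      exact congrArg (fun u : GL (Fin n) K => u.val.trace) (hf g)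
    exact h2 ▸ h1
  · refine (h (H.map M.subtype) ?_).sub (H.equivMapOfInjective _ M.subtype_injective).toMonoidHom
      (MulEquiv.injective _)
    rw [← Subgroup.map_commutator]
    rintro _ ⟨g, hg, rfl⟩
    exact (hk _).1 (hH g hg)

end Pool.Agent.MP_f7db47_al.GZ
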