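import Mathlib

/-!
Groups that almost normalise a group of matrices with traces in a subfield.
-/

namespace Pool.Agent.MP_f7db47_al.GZ

open Matrix

variable {G F ι : Type} [Group G] [Field F] [Fintype ι] [DecidableEq ι]

/-- The span of the image of a subgroup. -/
def spn (f : G →* Matrix ι ι F) (K : Subgroup G) : Submodule F (Matrix ι ι F) :=
  Submodule.span F (f '' K)

theorem spn_mono (f : G →* Matrix ι ι F) {K K' : Subgroup G} (h : K' ≤ K) :
    spn f K' ≤ spn f K :=
  Submodule.span_mono (Set.image_mono h)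

theorem mem_spn (f : G →* Matrix ι ι F) {K : Subgroup G} {x : G} (h : x ∈ K) : f x ∈ spn f K :=
  Submodule.subset_span ⟨x, h, rfl⟩

theorem spn_mul (f : G →* Matrix ι ι F) {K : Subgroup G} {a b : Matrix ι ι F}
    (ha : a ∈ spn f K) (hb : b ∈ spn f K) : a * b ∈ spn f K := by
  induction ha using Submodule.span_induction with
  | zero => rw [zero_mul]; exact zero_mem _
  | add x y _ _ hx hy => rw [add_mul]; exact add_mem hx hy
  | smul c x _ hx => rw [smul_mul_assoc]; exact Submodule.smul_mem _ c hx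
  | mem x hx =>
    obtain ⟨x, hx, rfl⟩ := hx
    induction hb using Submodule.span_induction with
    | zero => rw [mul_zero]; exact zero_mem _
    | add x y _ _ hx hy => rw [mul_add]; exact add_mem hx hy
    | smul c x _ hx => rw [mul_smul_comm]; exact Submodule.smul_mem _ c hx
    | mem y hy =>
      obtain ⟨y, hy, rfl⟩ := hy
      rw [← map_mul]
      exact mem_spn f (mul_mem hx hy)

theorem spn_conj (f : G →* Matrix ι ι F) {K K' : Subgroup G} {s t : G}
    (h : ∀ x ∈ K', s * x * t ∈ K) {a : Matrix ι ι F} (ha : a ∈ spn f K') :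
    f s * a * f t ∈ spn f K := by
  induction ha using Submodule.span_induction with
  | zero => rw [mul_zero, zero_mul]; exact zero_mem _
  | add x y _ _ hx hy => rw [mul_add, add_mul]; exact add_mem hx hy
  | smul c x _ hx => rw [mul_smul_comm, smul_mul_assoc]; exact Submodule.smul_mem _ c hx
  | mem x hx =>
    obtain ⟨x, hx, rfl⟩ := hx
    rw [← map_mul, ← map_mul]
    exact mem_spn f (h x hx)

/-- The dimension of the span does not increase under conjugation into a larger group. -/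
theorem finrank_spn_le (f : G →* Matrix ι ι F) {K K' : Subgroup G} {s : G}
    (h : ∀ x ∈ K', s * x * s⁻¹ ∈ K) :
    Module.finrank F (spn f K') ≤ Module.finrank F (spn f K) := by
  let φ : Matrix ι ι F →ₗ[F] Matrix ι ι F :=
    (LinearMap.mulRight F (f s⁻¹)).comp (LinearMap.mulLeft F (f s))
  have hφ : Function.Injective φ := by
    refine Function.LeftInverse.injective (g := fun a => f s⁻¹ * a * f s) fun a => ?_
    show f s⁻¹ * (f s * a * f s⁻¹) * f s = a
    rw [← mul_assoc, ← mul_assoc, ← map_mul, inv_mul_cancel, map_one, one_mul, mul_assoc,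
      ← map_mul, inv_mul_cancel, map_one, mul_one]
  rw [LinearEquiv.finrank_eq (Submodule.equivMapOfInjective φ hφ (spn f K'))]
  refine Submodule.finrank_mono ?_
  rintro _ ⟨a, ha, rfl⟩
  exact spn_conj f h ha

theorem finrank_spn_bound (f : G →* Matrix ι ι F) (K : Subgroup G) :
    Module.finrank F (spn f K) ≤ Fintype.card ι * Fintype.card ι := by
  have h := Submodule.finrank_le (spn f K)
  rwa [Module.finrank_matrix, Module.finrank_self, mul_one] at h

theorem Span_key (k : Subfield F) (f : G →* Matrix ι ι F) {K : Subgroup G}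
    (htr : ∀ g ∈ K, (f g).trace ∈ k) {a b : Matrix ι ι F} (ha : a ∈ spn f K) (hb : b ∈ spn f K)
    (ha' : ∀ x ∈ K, (a * f x).trace ∈ k) (hb' : ∀ x ∈ K, (b * f x).trace ∈ k) :
    (a * b).trace ∈ k := by
  obtain ⟨r, hr⟩ := LinearMap.exists_leftInverse_of_injective (Algebra.linearMap k F)
    (LinearMap.ker_eq_bot.2 (algebraMap k F).injective)
  have hr' : ∀ c : k, r (c : F) = c := fun c => LinearMap.congr_fun hr c
  obtain ⟨m, c, g, rfl⟩ := Submodule.mem_span_set'.1 hb
  have hg : ∀ i, ∃ x ∈ K, f x = (g i : Matrix ι ι F) := fun i => (g i).2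
  choose x hx hx' using hg
  have h1 : ∀ y ∈ spn f K, ((∑ i, c i • (g i : Matrix ι ι F)) * y).trace =
      ((∑ i, ((r (c i) : k) : F) • (g i : Matrix ι ι F)) * y).trace := by
    intro y hy
    induction hy using Submodule.span_induction with
    | zero => rw [mul_zero, mul_zero]
    | add x y _ _ hx hy => rw [mul_add, mul_add, trace_add, trace_add, hx, hy]
    | smul c x _ hx => rw [mul_smul_comm, mul_smul_comm, trace_smul, trace_smul, hx]
    | mem y hy =>
      obtain ⟨y, hy, rfl⟩ := hy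
      have h2 : ∀ i, ((g i : Matrix ι ι F) * f y).trace ∈ k := fun i => by
        rw [← hx', ← map_mul]
        exact htr _ (mul_mem (hx i) hy)
      have h3 : (r ((∑ i, c i • (g i : Matrix ι ι F)) * f y).trace : F) =
          ((∑ i, c i • (g i : Matrix ι ι F)) * f y).trace :=
        congrArg Subtype.val (hr' ⟨_, hb' y hy⟩)
      rw [← h3]
      simp only [Finset.sum_mul, smul_mul_assoc, trace_sum, trace_smul, smul_eq_mul, map_sum]
      push_cast
      refine Finset.sum_congr rfl fun i _ => ?_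
      have h4 : c i * ((g i : Matrix ι ι F) * f y).trace = (⟨_, h2 i⟩ : k) • c i := by
        rw [mul_comm]
        rfl
      rw [h4, map_smul, smul_eq_mul, mul_comm]
      rfl
  rw [trace_mul_comm, h1 a ha, trace_mul_comm, Finset.mul_sum, trace_sum]
  refine sum_mem fun i _ => ?_
  rw [mul_smul_comm, trace_smul, smul_eq_mul, ← hx']
  exact mul_mem (r (c i)).2 (ha' _ (hx i))

/-- The elements whose image lies in the canonical subring. -/
def Span_N (k : Subfield F) (f : G →* Matrix ι ι F) (K : Subgroup G)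
    (htr : ∀ g ∈ K, (f g).trace ∈ k) : Subgroup G where
  carrier := {g | (f g ∈ spn f K ∧ ∀ x ∈ K, (f g * f x).trace ∈ k) ∧
    f g⁻¹ ∈ spn f K ∧ ∀ x ∈ K, (f g⁻¹ * f x).trace ∈ k}
  one_mem' := by
    have h : f 1 ∈ spn f K ∧ ∀ x ∈ K, (f 1 * f x).trace ∈ k :=
      ⟨mem_spn f K.one_mem, fun x hx => by rw [map_one, one_mul]; exact htr x hx⟩
    exact ⟨h, by rwa [inv_one]⟩
  inv_mem' h := ⟨h.2, by rw [inv_inv]; exact h.1⟩
  mul_mem' := by
    have key : ∀ a b : G, (f a ∈ spn f K ∧ ∀ x ∈ K, (f a * f x).trace ∈ k) →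
        (f b ∈ spn f K ∧ ∀ x ∈ K, (f b * f x).trace ∈ k) →
        f (a * b) ∈ spn f K ∧ ∀ x ∈ K, (f (a * b) * f x).trace ∈ k := by
      intro a b ha hb
      rw [map_mul]
      refine ⟨spn_mul f ha.1 hb.1, fun x hx => ?_⟩
      rw [mul_assoc]
      refine Span_key k f htr ha.1 (spn_mul f hb.1 (mem_spn f hx)) ha.2 fun y hy => ?_
      rw [mul_assoc, ← map_mul]
      exact hb.2 _ (mul_mem hx hy)
    intro a b ha hb
    exact ⟨key a b ha.1 hb.1, by rw [_root_.mul_inv_rev]; exact key _ _ hb.2 ha.2⟩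

/-- The commutator subgroup of the group generated by the periods has traces in `k`. -/
theorem trace_commutator (k : Subfield F) (f : G →* Matrix ι ι F) {K K' : Subgroup G}
    (hle : K' ≤ K) (hrk : Module.finrank F (spn f K) ≤ Module.finrank F (spn f K'))
    (htr : ∀ g ∈ K, (f g).trace ∈ k) {S : Set G}
    (h1 : ∀ s ∈ S, ∀ x ∈ K', s * x * s⁻¹ ∈ K) (h2 : ∀ s ∈ S, ∀ x ∈ K', s⁻¹ * x * s ∈ K)
    (h3 : ∀ s ∈ S, ∀ t ∈ S, s * t * s⁻¹ * t⁻¹ ∈ K) :
    ∀ g ∈ ⁅Subgroup.closure S, Subgroup.closure S⁆, (f g).trace ∈ k := by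
  have hsp : spn f K' = spn f K := Submodule.eq_of_le_of_finrank_le (spn_mono f hle) hrk
  have htr' : ∀ g ∈ K', (f g).trace ∈ k := fun g hg => htr g (hle hg)
  let N := Span_N k f K' htr'
  have hK : ∀ y ∈ K, f y ∈ spn f K' ∧ ∀ x ∈ K', (f y * f x).trace ∈ k := fun y hy =>
    ⟨hsp ▸ mem_spn f hy, fun x hx => by
      rw [← map_mul]; exact htr _ (mul_mem hy (hle hx))⟩
  have hKN : K ≤ N := fun y hy => ⟨hK y hy, hK _ (inv_mem hy)⟩
  have conj : ∀ s t : G, (∀ x ∈ K', s * x * t ∈ K) → (∀ x ∈ K', t * x * s ∈ K) → ∀ a : G,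
      (f a ∈ spn f K' ∧ ∀ x ∈ K', (f a * f x).trace ∈ k) →
      f (s * a * t) ∈ spn f K' ∧ ∀ x ∈ K', (f (s * a * t) * f x).trace ∈ k := by
    intro s t hs ht a ha
    rw [map_mul, map_mul]
    refine ⟨hsp ▸ spn_conj f hs ha.1, fun x hx => ?_⟩
    rw [mul_assoc, mul_assoc, trace_mul_comm, mul_assoc, ← map_mul, ← map_mul]
    exact Span_key k f htr' ha.1 (hK _ (ht x hx)).1 ha.2 (hK _ (ht x hx)).2
  have hnorm : Subgroup.closure S ≤ Subgroup.normalizer (N : Set G) := by
    rw [Subgroup.closure_le]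
    intro s hs
    have e1 : ∀ a ∈ N, s * a * s⁻¹ ∈ N := fun a ha =>
      ⟨conj s s⁻¹ (h1 s hs) (h2 s hs) a ha.1, by
        rw [conj_inv]; exact conj s s⁻¹ (h1 s hs) (h2 s hs) _ ha.2⟩
    have e2 : ∀ a ∈ N, s⁻¹ * a * s ∈ N := fun a ha =>
      ⟨conj s⁻¹ s (h2 s hs) (h1 s hs) a ha.1, by
        have e : (s⁻¹ * a * s)⁻¹ = s⁻¹ * a⁻¹ * s := by group
        rw [e]; exact conj s⁻¹ s (h2 s hs) (h1 s hs) _ ha.2⟩
    refine Subgroup.mem_normalizer_iff.2 fun a => ⟨e1 a, fun ha => ?_⟩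
    have := e2 _ ha
    have e : s⁻¹ * (s * a * s⁻¹) * s = a := by group
    rwa [e] at this
  have hcj : ∀ s ∈ Subgroup.closure S, ∀ a ∈ N, s * a * s⁻¹ ∈ N := fun s hs a ha =>
    (Subgroup.mem_normalizer_iff.1 (hnorm hs) a).1 ha
  have hcomm : ⁅Subgroup.closure S, Subgroup.closure S⁆ ≤ N := by
    rw [Subgroup.commutator_le]
    intro a ha b hb
    rw [commutatorElement_def]
    induction ha, hb using Subgroup.closure_induction₂ with
    | mem x y hx hy => exact hKN (h3 x hx y hy)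
    | one_left x _ => simp
    | one_right x _ => simp
    | mul_left x y z hx _ _ e1 e2 =>
      have e : x * y * z * (x * y)⁻¹ * z⁻¹ =
          x * (y * z * y⁻¹ * z⁻¹) * x⁻¹ * (x * z * x⁻¹ * z⁻¹) := by group
      rw [e]
      exact mul_mem (hcj x hx _ e2) e1
    | mul_right y z x hy _ _ e1 e2 =>
      have e : x * (y * z) * x⁻¹ * (y * z)⁻¹ =
          x * y * x⁻¹ * y⁻¹ * (y * (x * z * x⁻¹ * z⁻¹) * y⁻¹) := by group
      rw [e]
      exact mul_mem e1 (hcj y hy _ e2)
    | inv_left x y hx _ e1 =>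
      have e : x⁻¹ * y * x⁻¹⁻¹ * y⁻¹ = x⁻¹ * (x * y * x⁻¹ * y⁻¹)⁻¹ * x⁻¹⁻¹ := by group
      rw [e]
      exact hcj _ (inv_mem hx) _ (inv_mem e1)
    | inv_right x y _ hy e1 =>
      have e : x * y⁻¹ * x⁻¹ * y⁻¹⁻¹ = y⁻¹ * (x * y * x⁻¹ * y⁻¹)⁻¹ * y⁻¹⁻¹ := by group
      rw [e]
      exact hcj _ (inv_mem hy) _ (inv_mem e1)
  intro g hg
  have := (hcomm hg).1.2 1 K'.one_mem
  rwa [map_one, mul_one] at this

end Pool.Agent.MP_f7db47_al.GZ
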