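import Pool.Agent.MP_f7db47_al.GZ.NFin2
import Pool.Agent.MP_f7db47_al.GZ.Span
import Pool.Agent.MP_f7db47_al.GN.NCore

/-!
Actions on lattices whose stabilisers have traces in a subfield.
-/

namespace Pool.Agent.MP_f7db47_al.GZ

open Matrix GN GN.Pl

universe v

variable {R : Type v} [Ring R]

theorem g1_nice {G : Type} [Group G] {ι : Type} [Fintype ι] (P : ι → Pl) (n : ℕ)
    (ρ : ∀ l, G →* (P l).A n) (h0 : QQ R PUnit.{1}) {d : ℕ}
    (hN : Nice G (fun g => ∀ l, ∃ Y, Lat Y ∧ ac (ρ l g) Y = Y) (fun H => QQ R H) d) :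
    G1 R G := by
  classical
  intro J _ _ A B h1 h2
  obtain ⟨sA, hA, -⟩ := exists_finset_msup A
  obtain ⟨sB, hB, -⟩ := exists_finset_msup B
  obtain ⟨bl, C, a, hS, ha⟩ := exists_bl (sA ∪ sB) P n ρ
  let F : GN.FR G J := ⟨fun t _ g _ => g ∈ bl.B t, fun _ => bl.one, bl.mono, bl.mul⟩
  obtain ⟨kf, Nf, e, ht⟩ := tree (R := R) n (Fintype.card ι * n)
  obtain ⟨R₀, hR, hf⟩ := fin_step2 h0 (Fintype.card ι * n) d Nf kf (n * (C + 6))
  obtain ⟨c, hc⟩ := exists_pars n C (2 ^ (Fintype.card ι * n) * R₀) (Fintype.card ι * n) bl.s₀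
  obtain ⟨c', hc'⟩ := exists_exp (Fintype.card J) c e
  obtain ⟨X, hX⟩ := hf c'
  obtain ⟨Uf, p, hp, hq⟩ := hc X
  exact ht G ι P bl C _ _ X R₀ _ _ a Uf p hp le_rfl hR (by positivity) hq
    (hX G ι P n bl C _ a Uf (by simpa only [ha] using hN))
    J F ⟨Fintype.card ι * n, fun _ => n, fun _ => 0, fun _ => _, fun _ _ => ⊤, fun _ _ _ => ⊥⟩
    A B ⟨bl.inv, id⟩ (hc' X) (Nd.root_inv a F _ X _ _) (fun _ => le_rfl) h1 h2
    (fun i j g hg => hS (Finset.mem_union_left _ (hA i j g hg)))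
    fun i j g hg => hS (Finset.mem_union_right _ (hB i j g hg))

theorem qq_lat2 {G : Type} [Group G] {ι : Type} [Fintype ι] (P : ι → Pl) (n : ℕ)
    (ρ : ∀ l, G →* (P l).A n) {F κ : Type} [Field F] [Fintype κ] [DecidableEq κ]
    (k : Subfield F) (f : G →* Matrix κ κ F)
    (hE : ∀ g : G, (∀ l, ∃ Y, Lat Y ∧ ac (ρ l g) Y = Y) → (f g).trace ∈ k)
    (hH : ∀ H : Subgroup G, (∀ g ∈ ⁅H, H⁆, (f g).trace ∈ k) → QQ R H) : QQ R G := by
  intro Q _ hQ Δ _ φ hφ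
  let p : Δ →* G := (MonoidHom.fst _ _).comp φ
  have h0 : QQ R PUnit.{1} := (hH ⊥ (by
    intro g hg
    rw [Subgroup.commutator_bot_left, Subgroup.mem_bot] at hg
    rw [hg, map_one, trace_one]
    exact natCast_mem k _)).sub 1 fun _ _ _ => rfl
  refine g1_nice P n (fun l => (ρ l).comp p) h0 (d := Fintype.card κ * Fintype.card κ)
    ⟨fun K => Module.finrank F (spn (f.comp p) K), finrank_spn_bound _,
      fun s h => finrank_spn_le _ h,
      fun h hq => hq.sub (Subgroup.inclusion h) (Subgroup.inclusion_injective h),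
      fun K K' S h1 h2 h3 h4 h5 h6 => ?_⟩
  refine qq_of_le' hQ φ hφ ((Subgroup.closure S).map p) (hH _ ?_) _ fun x hx => ⟨x, hx, rfl⟩
  rw [← Subgroup.map_commutator]
  rintro _ ⟨g, hg, rfl⟩
  exact trace_commutator k (f.comp p) h1 h3 (fun x hx => hE (p x) (h2 x hx)) h4 h5 h6 g hg

end Pool.Agent.MP_f7db47_al.GZ
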