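import Pool.Agent.MP_f7db47_al.GZ.Win2
import Pool.Agent.MP_f7db47_al.GN.NFin

/-!
The end of the induction, for actions that need not be free.
-/

namespace Pool.Agent.MP_f7db47_al.GZ

open Matrix GN GN.Pl

universe v

variable {R : Type v} [Ring R]

/-- The action on tuples of submodules. -/
@[reducible] noncomputable def NFin2_act {G ι : Type} [Group G] (P : ι → Pl) (n : ℕ)
    (ρ : ∀ l, G →* (P l).A n) : MulAction G (∀ l, (P l).L n) where
  smul γ Y := fun l => ac (ρ l γ) (Y l)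
  one_smul Y := funext fun l => by
    show ac (ρ l 1) (Y l) = Y l
    rw [map_one, ac_one]
  mul_smul γ γ' Y := funext fun l => by
    show ac (ρ l (γ * γ')) (Y l) = ac (ρ l γ) (ac (ρ l γ') (Y l))
    rw [map_mul, ac_mul]

theorem fin_step2 (h1 : QQ R PUnit.{1}) (β d Nf k cδ : ℕ) : ∃ R₀ : ℕ, 0 < R₀ ∧ ∀ c : ℕ, ∃ X : ℕ,
    ∀ (G : Type) [Group G] (ι : Type) [Fintype ι] (P : ι → Pl) (n : ℕ) (bl : Bl G) (C Rt : ℕ)
    (a : ∀ l, Ac G bl C (P l) n) (Uf : ℕ → ℕ),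
    Nice G (fun g => ∀ l, ∃ Y, Lat Y ∧ ac ((a l).ρ g) Y = Y) (fun H => QQ R H) d →
    ∀ (J N : Type) [Fintype J] [DecidableEq J] [Fintype N] (F : GN.FR G J) (ν : N → Nd P n β J)
      (A B : Matrix J J (MonoidAlgebra R G)), F.Good bl → Fintype.card N ≤ Nf →
      Fintype.card J ≤ 2 ^ 2 ^ (c * (X + 1)) →
      (∀ i, (ν i).Inv a F Rt X cδ (Uf (ν i).r) ∧ ∀ l, (ν i).rk l = 0) →
      (∀ x, ∃ i, R₀ ≤ (ν i).h x) → A * B = 1 → B * A = 1 → Ctl (F.rel k) id id A →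
      Ctl (F.rel k) id id B → T A := by
  obtain ⟨r, hr⟩ := vanish h1 (Nf * ((d + 1) * (9 ^ β + 1))) (2 * k + 1)
  refine ⟨2 * r + 1, by omega, fun c => ?_⟩
  obtain ⟨X, hX⟩ := win2 β d (cδ * (k + 1)) r c
  refine ⟨X, ?_⟩
  intro G _ ι _ P n bl C Rt a Uf hQ J N _ _ _ F ν A B hF hN hJ hν hcov hAB hBA hA hB
  let _ := NFin2_act P n fun l => (a l).ρ
  have hW : ∀ i j l, 0 < (ν i).h j → ∀ e, sc e (La ((ν i).W j l)) = ⊥ := fun i j l hj e =>
    NFin_bot (((hν i).1.rank j l hj).trans ((hν i).2 l)) e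
  have hS := fun i => hX G (∀ l, (P l).L n) J _ _ hQ hJ (ν i).Z (fun j => 0 < (ν i).h j) (by
    intro j hj v hv g hγ l
    refine ⟨(ν i).Z j v l, ?_, congrFun hγ l⟩
    obtain ⟨e, h2, h3⟩ := (hν i).1.lat j v l hj hv
    rw [hW i j l hj, sup_bot_eq] at h2
    exact ⟨e, h2, h3⟩)
  choose S hS1 hS2 hS3 using hS
  let S' : N × Fin (d + 1) × Fin (9 ^ β + 1) → Spi G J := fun x =>
    ⟨(S x.1 x.2).leg, fun j => min ((ν x.1).h j / 2) ((S x.1 x.2).ht j)⟩
  have key : ∀ x g y, F.rel k x g y → ∀ i, (S' i).rel (2 * k + 1) x g y := by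
    rintro x g y hxy ⟨i, q⟩
    have l1 := (hν i).1.lip hxy
    have l2 := (hν i).1.lip (hF.symm hxy)
    by_cases hc : k < (ν i).h x ∧ k < (ν i).h y
    · obtain ⟨δ, hδ, -, hu⟩ := (hν i).1.close hxy hc.1 hc.2
      obtain ⟨b1, b2, b3⟩ := hS3 i x y g δ hδ (fun v hv hv' => by
          funext l
          obtain ⟨u, -, hu'⟩ := hu l
          have h2 := hu' v hv hv' ⊥ (hW i x l (by omega) _).le bot_le
          rw [map_bot, bot_sup_eq, bot_sup_eq] at h2
          exact h2) q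
      refine ⟨?_, ?_, fun hl => ?_⟩
      · simp only [S']
        omega
      · simp only [S']
        omega
      · have := b3 hl
        simp only [S']
        omega
    · refine ⟨?_, ?_, fun _ => ?_⟩ <;> simp only [S'] <;> omega
  refine hr G J (N × Fin (d + 1) × Fin (9 ^ β + 1)) S' ?_ ?_ ?_ A B hAB hBA (hA.mono key)
    (hB.mono key)
  · rw [Fintype.card_prod, Fintype.card_prod, Fintype.card_fin, Fintype.card_fin]
    exact Nat.mul_le_mul_right _ hN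
  · rintro ⟨i, q⟩ j hj
    simp only [S'] at hj
    exact hS2 i q j (by omega) (by omega)
  · intro j
    obtain ⟨i, hi⟩ := hcov j
    obtain ⟨q, hq⟩ := hS1 i j
    refine ⟨(i, q), ?_⟩
    simp only [S']
    omega

end Pool.Agent.MP_f7db47_al.GZ
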