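import Pool.Agent.MP_f7db47_al.GZ.WD

/-!
Germs, periods and pieces.
-/

namespace Pool.Agent.MP_f7db47_al.GZ

open Pointwise GN

variable {G Ω ι : Type} [Group G] [MulAction G Ω]

/-- Germs of radius `r`. -/
abbrev Gm (ι Ω : Type) (r : ℕ) : Type := {c : ι → ℤ // Bx r c} → Ω

/-- The germ of a window at a point. -/
def germ (r : ℕ) (w : (ι → ℤ) → Ω) (m : ι → ℤ) : Gm ι Ω r := fun c => w (m + c.1)

variable (G) in
/-- The short periods. -/
def Pers (S A : ℕ) (γ : Gm ι Ω (S + A)) : Set G :=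
  {h | ∃ (s : ι → ℤ) (hs : Bx A s), ∀ (c : ι → ℤ) (hc : Bx S c),
    h • γ ⟨c, bx_mono hc (Nat.le_add_right _ _)⟩ = γ ⟨c + s, bx_add hc hs⟩}

variable (G) in
/-- The group generated by the short periods. -/
def Hg (S A : ℕ) (γ : Gm ι Ω (S + A)) : Subgroup G := Subgroup.closure (Pers G S A γ)

variable (G) in
/-- The piece of a germ. -/
def piece (S A : ℕ) (γ : Gm ι Ω (S + A)) : Set (Gm ι Ω (S + A)) :=
  {γ' | ∃ h ∈ Hg G S A γ, γ' = h • γ}

variable (G) in
/-- The elements that fix a ball of the window. -/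
def Fix (r : ℕ) (w : (ι → ℤ) → Ω) (m : ι → ℤ) : Subgroup G where
  carrier := {g | ∀ c, Bx r c → g • w (m + c) = w (m + c)}
  one_mem' _ _ := one_smul _ _
  mul_mem' ha hb c hc := by rw [mul_smul, hb c hc, ha c hc]
  inv_mem' ha c hc := by rw [inv_smul_eq_iff, ha c hc]

variable {S A : ℕ}

theorem Hg_conj (g : G) (γ : Gm ι Ω (S + A)) {h : G} (hh : h ∈ Hg G S A γ) :
    g * h * g⁻¹ ∈ Hg G S A (g • γ) := by
  induction hh using Subgroup.closure_induction with
  | mem x hx =>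
    obtain ⟨s, hs, h⟩ := hx
    refine Subgroup.subset_closure ⟨s, hs, fun c hc => ?_⟩
    rw [Pi.smul_apply, Pi.smul_apply, mul_smul, inv_smul_smul, mul_smul, h c hc]
  | one => simp
  | mul x y _ _ hx hy =>
    rw [← conj_mul]
    exact mul_mem hx hy
  | inv x _ hx =>
    rw [← conj_inv]
    exact inv_mem hx

theorem piece_smul (g : G) (γ : Gm ι Ω (S + A)) :
    piece G S A (g • γ) = g • piece G S A γ := by
  ext γ'
  rw [Set.mem_smul_set_iff_inv_smul_mem]
  constructor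
  · rintro ⟨h, hh, rfl⟩
    have := Hg_conj g⁻¹ _ hh
    rw [inv_smul_smul] at this
    exact ⟨_, this, by rw [inv_inv, mul_smul, mul_smul]⟩
  · rintro ⟨h, hh, e⟩
    exact ⟨_, Hg_conj g γ hh, by rw [mul_smul, inv_smul_smul, mul_smul, ← e, smul_inv_smul]⟩

theorem smul_piece {γ : Gm ι Ω (S + A)} {h : G} (hh : h ∈ Hg G S A γ) :
    h • piece G S A γ = piece G S A γ := by
  ext γ'
  rw [Set.mem_smul_set_iff_inv_smul_mem]
  constructor
  · rintro ⟨h', hh', e⟩
    exact ⟨h * h', mul_mem hh hh', by rw [mul_smul, ← e, smul_inv_smul]⟩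
  · rintro ⟨h', hh', rfl⟩
    exact ⟨h⁻¹ * h', mul_mem (inv_mem hh) hh', by rw [mul_smul]⟩

theorem mem_Hg_of_piece {γ : Gm ι Ω (S + A)} {g : G}
    (h : piece G S A γ = g • piece G S A γ) : g ∈ Hg G S A γ := by
  have h1 : g • γ ∈ piece G S A γ := by
    rw [h]
    exact Set.smul_mem_smul_set ⟨1, one_mem _, (one_smul _ _).symm⟩
  obtain ⟨h', hh', e⟩ := h1
  have h2 : h'⁻¹ * g ∈ Hg G S A γ := by
    refine Subgroup.subset_closure ⟨0, bx_zero A, fun c hc => ?_⟩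
    have := congrFun e ⟨c, bx_mono hc (Nat.le_add_right _ _)⟩
    rw [Pi.smul_apply, Pi.smul_apply] at this
    rw [mul_smul, this, inv_smul_smul]
    simp only [add_zero]
  have := mul_mem hh' h2
  rwa [mul_inv_cancel_left] at this

theorem piece_eq {w : (ι → ℤ) → Ω} {m m' : ι → ℤ} (hm : Bx A (m' - m)) {h : G}
    (e : germ (S + A) w m' = h • germ (S + A) w m) :
    piece G S A (germ (S + A) w m') = piece G S A (germ (S + A) w m) := by
  rw [e, piece_smul]
  refine smul_piece (Subgroup.subset_closure ⟨m' - m, hm, fun c hc => ?_⟩)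
  have := congrFun e ⟨c, bx_mono hc (Nat.le_add_right _ _)⟩
  rw [Pi.smul_apply] at this
  rw [← this]
  show w (m' + c) = w (m + (c + (m' - m)))
  congr 1
  abel

theorem Fix_le {r r' a : ℕ} (w : (ι → ℤ) → Ω) {m m' : ι → ℤ} (hm : Bx a (m' - m))
    (h : a + r' ≤ r) : Fix G r w m ≤ Fix G r' w m' := fun g hg c hc => by
  have := hg (m' - m + c) (bx_mono (bx_add hm hc) h)
  rwa [← add_assoc, add_sub_cancel] at this

theorem Fix_conj {r U W : ℕ} {w w' : (ι → ℤ) → Ω} {s : ι → ℤ} {g : G} (hs : Bx U s)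
    (h : ∀ c, Bx W c → w c = g • w' (c + s)) (hr : r ≤ W) :
    ∀ x ∈ Fix G (r + U) w' 0, g * x * g⁻¹ ∈ Fix G r w 0 := fun x hx c hc => by
  have := hx _ (bx_add hc hs)
  rw [zero_add] at this ⊢
  rw [h c (bx_mono hc hr), mul_smul, inv_smul_smul, mul_smul, this]

theorem germ_eq {r a W : ℕ} {w w' : (ι → ℤ) → Ω} {s m : ι → ℤ} {g : G}
    (h : ∀ c, Bx W c → w c = g • w' (c + s)) (hm : Bx a m) (hr : a + r ≤ W) :
    germ r w m = g • germ r w' (m + s) := by
  funext c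
  rw [Pi.smul_apply, germ, germ, h _ (bx_mono (bx_add hm c.2) hr), add_right_comm]

theorem Nice.good_Hg {El : G → Prop} {Good : Subgroup G → Prop} {d : ℕ} (X : Nice G El Good d)
    (S₀ A : ℕ) (w : (ι → ℤ) → Ω) (m : ι → ℤ) (hE : ∀ x : G, x • w m = w m → El x)
    (h : X.rk (Fix G S₀ w m) ≤ X.rk (Fix G (S₀ + 2 * A + A) w m)) :
    Good (Hg G (S₀ + 2 * A) A (germ (S₀ + 2 * A + A) w m)) := by
  have key : ∀ s ∈ Pers G (S₀ + 2 * A) A (germ (S₀ + 2 * A + A) w m), ∃ σ, Bx A σ ∧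
      (∀ c, Bx (S₀ + 2 * A) c → s • w (m + c) = w (m + (c + σ))) ∧
      ∀ c, Bx (S₀ + A) c → s⁻¹ • w (m + c) = w (m + (c - σ)) := by
    rintro s ⟨σ, hσ, hs⟩
    refine ⟨σ, hσ, hs, fun c hc => ?_⟩
    have : s • w (m + (c - σ)) = w (m + (c - σ + σ)) := hs _ (bx_mono (bx_sub hc hσ) (by omega))
    rw [inv_smul_eq_iff, this, sub_add_cancel]
  refine X.good (Fix G S₀ w m) (Fix G (S₀ + 2 * A + A) w m) _
    (Fix_le w (a := 0) (by rw [sub_self]; exact bx_zero 0) (by omega))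
    (fun x hx => hE x (by simpa using hx 0 (bx_zero _))) h (fun s hs x hx c hc => ?_) (fun s hs x hx c hc => ?_)
    fun s hs t ht c hc => ?_
  · obtain ⟨σ, hσ, h1, h2⟩ := key s hs
    rw [mul_smul, mul_smul, h2 c (bx_mono hc (by omega)), hx _ (bx_mono (bx_sub hc hσ) (by omega)),
      h1 _ (bx_mono (bx_sub hc hσ) (by omega)), sub_add_cancel]
  · obtain ⟨σ, hσ, h1, h2⟩ := key s hs
    rw [mul_smul, mul_smul, h1 c (bx_mono hc (by omega)), hx _ (bx_mono (bx_add hc hσ) (by omega)),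
      h2 _ (bx_add hc hσ), add_sub_cancel_right]
  · obtain ⟨σ, hσ, h1, h2⟩ := key s hs
    obtain ⟨τ, hτ, h3, h4⟩ := key t ht
    have e : c - τ - σ + τ = c - σ := by abel
    rw [mul_smul, mul_smul, mul_smul, h4 c (bx_mono hc (by omega)), h2 _ (bx_sub hc hτ),
      h3 _ (bx_mono (bx_sub (bx_sub hc hτ) hσ) (by omega)), e, h1 _ (bx_mono (bx_sub hc hσ) (by omega)),
      sub_add_cancel]

/-- The groupoid of a map to a set with an action. -/
def ofMap {Y Λ : Type} [MulAction G Y] (P : Λ → Y) : Gpd G Λ where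
  r x g y := P x = g • P y
  refl _ := (one_smul _ _).symm
  symm h := by rw [h, inv_smul_smul]
  trans h h' := by rw [h, h', mul_smul]

end Pool.Agent.MP_f7db47_al.GZ
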