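import Pool.Agent.MP_f7db47_al.GN.DN

/-!
Groups generated by periods: definitions.
-/

namespace Pool.Agent.MP_f7db47_al.GZ

open GN

/-- Groups generated by periods are good as soon as the rank of the stabilisers does not drop. -/
structure Nice (G : Type) [Group G] (El : G → Prop) (Good : Subgroup G → Prop) (d : ℕ) where
  rk : Subgroup G → ℕ
  le : ∀ K, rk K ≤ d
  mono : ∀ {K K' : Subgroup G} (s : G), (∀ x ∈ K', s * x * s⁻¹ ∈ K) → rk K' ≤ rk K
  sub : ∀ {H H' : Subgroup G}, H' ≤ H → Good H → Good H'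
  good : ∀ (K K' : Subgroup G) (S : Set G), K' ≤ K → (∀ x ∈ K, El x) →
    rk K ≤ rk K' → (∀ s ∈ S, ∀ x ∈ K', s * x * s⁻¹ ∈ K) → (∀ s ∈ S, ∀ x ∈ K', s⁻¹ * x * s ∈ K) →
    (∀ s ∈ S, ∀ t ∈ S, s * t * s⁻¹ * t⁻¹ ∈ K) → Good (Subgroup.closure S)

variable {ι : Type}

theorem bx_mono {r r' : ℕ} {c : ι → ℤ} (h : Bx r c) (hr : r ≤ r') : Bx r' c :=
  fun τ => (h τ).trans (by exact_mod_cast hr)

theorem bx_add {r r' : ℕ} {c c' : ι → ℤ} (h : Bx r c) (h' : Bx r' c') :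
    Bx (r + r') (c + c') := fun τ => by
  have := abs_add_le (c τ) (c' τ)
  have := h τ
  have := h' τ
  rw [Pi.add_apply]
  push_cast
  omega

theorem bx_neg {r : ℕ} {c : ι → ℤ} (h : Bx r c) : Bx r (-c) := fun τ => by
  rw [Pi.neg_apply, abs_neg]
  exact h τ

theorem bx_sub {r r' : ℕ} {c c' : ι → ℤ} (h : Bx r c) (h' : Bx r' c') :
    Bx (r + r') (c - c') := by
  rw [sub_eq_add_neg]
  exact bx_add h (bx_neg h')

theorem bx_zero (r : ℕ) : Bx r (0 : ι → ℤ) := fun _ => by simp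

end Pool.Agent.MP_f7db47_al.GZ
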