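import Pool.Agent.MP_f7db47_al.GZ.Piece
import Pool.Agent.MP_f7db47_al.GN.WMark
import Pool.Agent.MP_f7db47_al.GN.Stretch

/-!
Spiders from windows, for actions that need not be free.
-/

namespace Pool.Agent.MP_f7db47_al.GZ

open GN Pointwise

theorem Win2_drop (f : ℕ → ℕ) (d : ℕ) (h : f 0 ≤ d) : ∃ j ≤ d, f j ≤ f (j + 1) := by
  by_contra hc
  push Not at hc
  have : ∀ j ≤ d + 1, f j + j ≤ d := by
    intro j
    induction j with
    | zero => intro _; simpa using h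
    | succ j ih =>
      intro hj
      have := ih (by omega)
      have := hc j (by omega)
      omega
  have := this (d + 1) le_rfl
  omega

theorem win2 (β d A₀ r c : ℕ) : ∃ X : ℕ, ∀ (G : Type) [Group G] (Ω : Type) [MulAction G Ω]
    (J : Type) [Fintype J] (El : G → Prop) (Good : Subgroup G → Prop), Nice G El Good d →
    Fintype.card J ≤ 2 ^ 2 ^ (c * (X + 1)) →
    ∀ (ω : J → (Fin β → ℤ) → Ω) (good : J → Prop),
      (∀ j, good j → ∀ v, Bx X v → ∀ γ : G, γ • ω j v = ω j v → El γ) →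
      ∃ S : Fin (d + 1) × Fin (9 ^ β + 1) → Spi G J, (∀ j, ∃ i, r ≤ (S i).ht j) ∧
        (∀ i j, good j → 0 < (S i).ht j → Good ((S i).leg.grp j)) ∧
        ∀ j j' (γ : G) δ, Bx A₀ δ →
          (∀ v, Bx X v → Bx X (v + δ) → ω j v = γ • ω j' (v + δ)) → ∀ i, (S i).rel 1 j γ j' := by
  obtain ⟨t, ht⟩ : ∃ t, t = A₀ * r := ⟨_, rfl⟩
  obtain ⟨X, hX, hM⟩ := wmark β t (18 * t * d + 18 * t + A₀) (2 * t) c
  refine ⟨X, fun G _ Ω _ J _ El Good N hJ ω good hE => ?_⟩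
  obtain ⟨M, m1, m2, m3⟩ := hM G Ω J hJ ω
  let p : Fin (d + 1) × Fin (9 ^ β + 1) → J → ℕ → Prop := fun i x h =>
    N.rk (Fix G (18 * t * i.1 + A₀ * (r - h)) (ω x) 0) ≤
      N.rk (Fix G (18 * t * i.1 + 17 * t + A₀ * h) (ω x) 0) ∧
    ∃ m, M i.2 x m ∧ Bx (t + A₀ * (r - h)) m
  let P : ∀ i : Fin (d + 1) × Fin (9 ^ β + 1), J →
      Set (Gm (Fin β) Ω (18 * t * i.1 + 3 * t + 2 * (4 * t) + 4 * t)) := fun i x =>
    {γ' | ∃ m, M i.2 x m ∧ Bx (2 * t) m ∧ γ' ∈ piece G _ _ (germ _ (ω x) m)}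
  have hi : ∀ i : Fin (d + 1), 18 * t * i ≤ 18 * t * d := fun i =>
    Nat.mul_le_mul_left _ (Nat.lt_succ_iff.1 i.2)
  have hrh : ∀ h, A₀ * (r - h) ≤ t := fun h => ht ▸ Nat.mul_le_mul_left _ (Nat.sub_le _ _)
  have hs : ∀ h, 0 < h → h ≤ r → A₀ * (r - h) + A₀ = A₀ * (r - (h - 1)) := fun h h1 h2 => by
    rw [← Nat.mul_succ]
    congr 1
    omega
  have hP : ∀ i x m, M i.2 x m → Bx (2 * t) m → P i x = piece G _ _ (germ _ (ω x) m) := by
    intro i x m hm bm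
    ext γ'
    refine ⟨?_, fun h => ⟨m, hm, bm, h⟩⟩
    rintro ⟨m', hm', bm', h⟩
    obtain ⟨γ, hγ⟩ := m2 _ x m m' hm hm' bm bm' (bx_mono (bx_sub bm bm') (by omega))
    have := hi i.1
    rwa [piece_eq (bx_mono (bx_sub bm' bm) (by omega)) (h := γ)
      (funext fun c => hγ c.1 (bx_mono c.2 (by omega)))] at h
  have rev : ∀ (x y : J) (g : G) δ, (∀ v, Bx X v → Bx X (v + δ) → ω x v = g • ω y (v + δ)) →
      ∀ v, Bx X v → Bx X (v + -δ) → ω y v = g⁻¹ • ω x (v + -δ) := fun x y g δ h v h1 h2 => by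
    rw [eq_inv_smul_iff, h _ h2 (by rwa [neg_add_cancel_right]), neg_add_cancel_right]
  have cut : ∀ (x y : J) (g : G) δ, Bx A₀ δ →
      (∀ v, Bx X v → Bx X (v + δ) → ω x v = g • ω y (v + δ)) →
      ∀ v, Bx (18 * t * d + 20 * t) v → ω x v = g • ω y (v + δ) := fun x y g δ hδ h v hv =>
    h v (bx_mono hv (by omega)) (bx_mono (bx_add hv hδ) (by omega))
  have mk : ∀ (x y : J) (g : G) δ, Bx A₀ δ →
      (∀ v, Bx X v → Bx X (v + δ) → ω x v = g • ω y (v + δ)) → ∀ q h m, 0 < h → h ≤ r →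
      M q x m → Bx (t + A₀ * (r - h)) m →
      M q y (m + δ) ∧ Bx (t + A₀ * (r - (h - 1))) (m + δ) := by
    intro x y g δ hδ h q k m h1 h2 hm bm
    have b : Bx (t + A₀ * (r - (k - 1))) (m + δ) := by
      rw [← hs k h1 h2, ← add_assoc]
      exact bx_add bm hδ
    have := hrh k
    have := hrh (k - 1)
    exact ⟨(m3 x y g δ h q m (bx_mono bm (by omega)) (bx_mono b (by omega))).1 hm, b⟩
  have step : ∀ (x y : J) (g : G) δ, Bx A₀ δ →
      (∀ v, Bx X v → Bx X (v + δ) → ω x v = g • ω y (v + δ)) → ∀ i,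
      dep (p i x) r ≤ dep (p i y) r + 1 ∧ (0 < dep (p i x) r → P i x = g • P i y) := by
    intro x y g δ hδ h i
    have := hi i.1
    refine ⟨dep_lip fun k h1 h2 ⟨a, m, hm, bm⟩ => ⟨?_, m + δ, mk x y g δ hδ h _ k m (by omega) h2
      hm bm⟩, fun h0 => ?_⟩
    · have := hrh k
      have e : A₀ * k = A₀ * (k - 1) + A₀ := by
        rw [← Nat.mul_succ]
        congr 1
        omega
      have hk : A₀ * k ≤ t := ht ▸ Nat.mul_le_mul_left _ h2
      rw [← hs k (by omega) h2, ← add_assoc]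
      rw [e, ← add_assoc] at a
      exact ((N.mono g (Fix_conj hδ (cut x y g δ hδ h) (by omega))).trans a).trans
        (N.mono g⁻¹ (Fix_conj (bx_neg hδ) (cut y x g⁻¹ (-δ) (bx_neg hδ) (rev x y g δ h))
          (by omega)))
    · obtain ⟨-, m, hm, bm⟩ := dep_spec h0
      obtain ⟨hm', bm'⟩ := mk x y g δ hδ h _ _ m h0 (dep_le _ _) hm bm
      have := hrh (dep (p i x) r)
      have := hrh (dep (p i x) r - 1)
      have b : Bx (2 * t) m := bx_mono bm (by omega)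
      rw [hP i x m hm b, hP i y _ hm' (bx_mono bm' (by omega)),
        germ_eq (cut x y g δ hδ h) b (by omega), piece_smul]
  refine ⟨fun i => ⟨ofMap (P i), fun x => dep (p i x) r⟩, fun x => ?_, fun i x hx h0 => ?_,
    fun x y g δ hδ h i => ?_⟩
  · obtain ⟨q, m, hm, bm⟩ := m1 x
    obtain ⟨j, hj, h⟩ := Win2_drop (fun j => N.rk (Fix G (18 * t * j) (ω x) 0)) d (N.le _)
    refine ⟨(⟨j, by omega⟩, q), le_dep ⟨?_, m, hm, by simpa using bm⟩ le_rfl⟩
    have e : 18 * t * j + 17 * t + A₀ * r = 18 * t * (j + 1) := by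
      rw [← ht]
      ring
    simp only [Nat.sub_self, mul_zero, add_zero, e]
    exact h
  · obtain ⟨a, m, hm, bm⟩ := dep_spec h0
    have := hrh (dep (p i x) r)
    have b : Bx (2 * t) m := bx_mono bm (by omega)
    have inc : ∀ {K K' : Subgroup G}, K' ≤ K → N.rk K' ≤ N.rk K := fun h =>
      N.mono 1 fun z hz => by simpa using h hz
    refine N.sub (fun g hg => ?_) (N.good_Hg (18 * t * i.1 + 3 * t) (4 * t) (ω x) m
      (hE x hx m (bx_mono b (by omega))) (((inc ?_).trans a).trans (inc ?_)))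
    · have hg' : P i x = g • P i x := hg
      rw [hP i x m hm b] at hg'
      exact mem_Hg_of_piece hg'
    · exact Fix_le _ (a := 2 * t) (by rw [zero_sub]; exact bx_neg b) (by omega)
    · exact Fix_le _ (a := 2 * t) (by rw [sub_zero]; exact b) (by omega)
  · obtain ⟨a1, a2⟩ := step x y g δ hδ h i
    obtain ⟨b1, b2⟩ := step y x g⁻¹ (-δ) (bx_neg hδ) (rev x y g δ h) i
    refine ⟨a1, b1, fun hl => ?_⟩
    have e : dep (p i x) r = 0 := by
      by_contra e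
      exact hl (a2 (Nat.pos_of_ne_zero e))
    show dep (p i x) r + dep (p i y) r ≤ 1
    omega

end Pool.Agent.MP_f7db47_al.GZ
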